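import Pool.Agent.H47.PF.Stm

/-! # Project PF, stub PF-CHEB: second moment (helper4) -/

set_option autoImplicit false

open Finset

namespace Pool.Agent.H47.PF.CHEB

lemma unif {A B : Type} [AddGroup A] [AddGroup B] [Fintype A] [Fintype B] (f : A →+ B)
    (hf : Function.Surjective f) (φ : B → ℝ) :
    (Fintype.card B : ℝ) * ∑ a, φ (f a) = Fintype.card A * ∑ b, φ b := by
  classical
  have hK : ∀ b, #{a | f a = b} = #{a | f a = 0} := fun b =>
    AddMonoidHom.card_fiber_eq_of_mem_range f (hf b) (hf 0)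
  have h1 : ∑ a, φ (f a) = (#{a | f a = 0} : ℝ) * ∑ b, φ b := by
    rw [← Finset.sum_fiberwise univ f (fun a => φ (f a)), Finset.mul_sum]
    refine Finset.sum_congr rfl fun b _ => ?_
    rw [← hK b, ← nsmul_eq_mul, ← Finset.sum_const]
    refine Finset.sum_congr rfl fun a ha => ?_
    rw [(Finset.mem_filter.1 ha).2]
  have h2 : Fintype.card A = Fintype.card B * #{a | f a = 0} := by
    have h3 : ∑ b, #{a | f a = b} = Fintype.card A := by
      rw [← Finset.card_eq_sum_card_fiberwise (f := f) (t := univ) (fun _ _ => mem_univ _)]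
      rfl
    rw [← h3, Finset.sum_congr rfl fun b _ => hK b, Finset.sum_const, smul_eq_mul]
    rfl
  rw [h1, h2]
  push_cast
  ring

/-- the reduction -/
def red {ι : Type} {N : ℕ} (p : ℕ) (z : ι → ZMod N) : ι → ZMod p := fun i => ((z i).val : ZMod p)

lemma red_eq {ι : Type} {N p : ℕ} [NeZero N] (h : p ∣ N) (z : ι → ZMod N) :
    red p z = (ZMod.castHom h (ZMod p)).toAddMonoidHom.compLeft ι z := by
  funext i
  show ((z i).val : ZMod p) = ZMod.castHom h (ZMod p) (z i)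
  rw [ZMod.castHom_apply, ZMod.natCast_val]

lemma surj1 {ι : Type} {N p : ℕ} (h : p ∣ N) :
    Function.Surjective ((ZMod.castHom h (ZMod p)).toAddMonoidHom.compLeft ι) := by
  intro b
  choose z hz using fun i => ZMod.castHom_surjective h (b i)
  exact ⟨z, funext hz⟩

lemma surj2 {ι : Type} {N p q : ℕ} [NeZero p] [NeZero q] (h : p ∣ N) (h' : q ∣ N) (hc : p.Coprime q) :
    Function.Surjective (((ZMod.castHom h (ZMod p)).toAddMonoidHom.compLeft ι).prod
      ((ZMod.castHom h' (ZMod q)).toAddMonoidHom.compLeft ι)) := by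
  intro b
  have hz : ∀ i, ∃ z : ZMod N, ZMod.castHom h (ZMod p) z = b.1 i ∧ ZMod.castHom h' (ZMod q) z = b.2 i := by
    intro i
    obtain ⟨k, hk1, hk2⟩ := Nat.chineseRemainder hc (b.1 i).val (b.2 i).val
    refine ⟨(k : ZMod N), ?_, ?_⟩
    · rw [map_natCast, (ZMod.natCast_eq_natCast_iff _ _ _).2 hk1, ZMod.natCast_zmod_val]
    · rw [map_natCast, (ZMod.natCast_eq_natCast_iff _ _ _).2 hk2, ZMod.natCast_zmod_val]
  choose z hz1 hz2 using hz
  exact ⟨z, Prod.ext (funext hz1) (funext hz2)⟩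

/-- a centred indicator function -/
noncomputable def ph {ι : Type} (G : ∀ p : ℕ, Set (ι → ZMod p)) (cp : ℕ → ℝ) (p : ℕ) (b : ι → ZMod p) : ℝ :=
  open Classical in (if b ∈ G p then 1 else 0) - cp p

theorem main : S_CHEB := by
  intro S ι _ G c ε hε hS hG
  classical
  obtain ⟨d, hd⟩ : ∃ d, d = Fintype.card ι := ⟨_, rfl⟩
  obtain ⟨N, hN⟩ : ∃ N, N = ∏ p ∈ S, p := ⟨_, rfl⟩
  have hN0 : N ≠ 0 := by
    rw [hN]
    exact Finset.prod_ne_zero_iff.2 fun p hp => (hS p hp).ne_zero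
  haveI : NeZero N := ⟨hN0⟩
  have hdvd : ∀ p ∈ S, p ∣ N := fun p hp => by rw [hN]; exact Finset.dvd_prod_of_mem _ hp
  have hNr : (∏ p ∈ S, (p : ℝ)) = N := by rw [hN]; push_cast; rfl
  rw [hNr, ← hd]
  rw [← hd] at hG
  obtain ⟨cp, hcp⟩ : ∃ cp : ℕ → ℝ, ∀ p, cp p = (Nat.card (G p) : ℝ) / (p : ℝ) ^ d := ⟨_, fun _ => rfl⟩
  have hpos : ∀ p ∈ S, (0 : ℝ) < (p : ℝ) ^ d := fun p hp => by
    have : (0 : ℝ) < p := by exact_mod_cast (hS p hp).pos
    positivity
  have hcge : ∀ p ∈ S, c ≤ cp p := fun p hp => by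
    rw [hcp, le_div_iff₀ (hpos p hp)]
    exact hG p hp
  have hM : (Fintype.card (ι → ZMod N) : ℝ) = (N : ℝ) ^ d := by
    rw [Fintype.card_fun, ZMod.card, hd]; push_cast; rfl
  have hMp : ∀ p ∈ S, ∀ (_ : Fintype (ι → ZMod p)), (Fintype.card (ι → ZMod p) : ℝ) = (p : ℝ) ^ d := by
    intro p hp _
    haveI : NeZero p := ⟨(hS p hp).ne_zero⟩
    rw [← Nat.card_eq_fintype_card, Nat.card_fun, Nat.card_zmod, Nat.card_eq_fintype_card, hd]
    push_cast; rfl
  -- sums of the centred indicator functions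
  have s1 : ∀ p ∈ S, ∀ (_ : Fintype (ι → ZMod p)), ∑ b, ph G cp p b = 0 := by
    intro p hp _
    unfold ph
    rw [Finset.sum_sub_distrib, Finset.sum_const, nsmul_eq_mul, Finset.card_univ, hMp p hp, hcp]
    have h1 : ∑ b : ι → ZMod p, (if b ∈ G p then (1 : ℝ) else 0) = Nat.card (G p) := by
      rw [Finset.sum_boole, Nat.subtype_card (s := univ.filter (· ∈ G p)) (p := (· ∈ G p)) (by simp)]
    rw [h1]
    field_simp [(hpos p hp).ne']
    ring
  have s2 : ∀ p ∈ S, ∀ (_ : Fintype (ι → ZMod p)), ∑ b, ph G cp p b * ph G cp p b ≤ (p : ℝ) ^ d / 4 := by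
    intro p hp _
    have h1 : ∀ b, ph G cp p b * ph G cp p b = (1 - 2 * cp p) * ph G cp p b + (cp p - cp p ^ 2) := by
      intro b
      unfold ph
      split_ifs <;> ring
    simp_rw [h1]
    rw [Finset.sum_add_distrib, ← Finset.mul_sum, s1 p hp, Finset.sum_const, nsmul_eq_mul, Finset.card_univ,
      hMp p hp, mul_zero, zero_add]
    have h2 : cp p - cp p ^ 2 ≤ 1 / 4 := by nlinarith [sq_nonneg (cp p - 1 / 2)]
    calc (p : ℝ) ^ d * (cp p - cp p ^ 2) ≤ (p : ℝ) ^ d * (1 / 4) := mul_le_mul_of_nonneg_left h2 (hpos p hp).le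
      _ = _ := by ring
  -- the second moment
  have hdiag : ∀ p ∈ S, ∑ z : ι → ZMod N, ph G cp p (red p z) * ph G cp p (red p z) ≤ (N : ℝ) ^ d / 4 := by
    intro p hp
    haveI : NeZero p := ⟨(hS p hp).ne_zero⟩
    have h1 := unif _ (surj1 (ι := ι) (hdvd p hp)) (fun b => ph G cp p b * ph G cp p b)
    simp only [← red_eq (hdvd p hp)] at h1
    rw [hM, hMp p hp] at h1
    have h2 := s2 p hp inferInstance
    have h3 : (0 : ℝ) ≤ (N : ℝ) ^ d := by positivity
    have h4 := mul_le_mul_of_nonneg_left h2 h3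
    rw [← h1] at h4
    have h5 := hpos p hp
    by_contra hcon
    push Not at hcon
    have h6 := mul_lt_mul_of_pos_left hcon h5
    linarith
  have hoff : ∀ p ∈ S, ∀ q ∈ S, p ≠ q → ∑ z : ι → ZMod N, ph G cp p (red p z) * ph G cp q (red q z) = 0 := by
    intro p hp q hq hpq
    haveI : NeZero p := ⟨(hS p hp).ne_zero⟩
    haveI : NeZero q := ⟨(hS q hq).ne_zero⟩
    have hc : p.Coprime q := (Nat.coprime_primes (hS p hp) (hS q hq)).2 hpq
    have h1 := unif _ (surj2 (ι := ι) (hdvd p hp) (hdvd q hq) hc) (fun b => ph G cp p b.1 * ph G cp q b.2)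
    have h2 : ∑ b : (ι → ZMod p) × (ι → ZMod q), ph G cp p b.1 * ph G cp q b.2 = 0 := by
      rw [Fintype.sum_prod_type]
      simp only [← Finset.mul_sum]
      rw [s1 q hq]
      simp
    rw [h2, mul_zero] at h1
    have h3 : (Fintype.card ((ι → ZMod p) × (ι → ZMod q)) : ℝ) ≠ 0 := by
      have : Fintype.card ((ι → ZMod p) × (ι → ZMod q)) ≠ 0 := Fintype.card_ne_zero
      exact_mod_cast this
    have h4 := (mul_eq_zero.1 h1).resolve_left h3
    rw [← h4]
    refine Finset.sum_congr rfl fun z _ => ?_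
    rw [red_eq (hdvd p hp), red_eq (hdvd q hq)]
    rfl
  have hsec : ∑ z : ι → ZMod N, (∑ p ∈ S, ph G cp p (red p z)) ^ 2 ≤ S.card * ((N : ℝ) ^ d / 4) := by
    have h1 : ∑ z : ι → ZMod N, (∑ p ∈ S, ph G cp p (red p z)) ^ 2 =
        ∑ p ∈ S, ∑ q ∈ S, ∑ z : ι → ZMod N, ph G cp p (red p z) * ph G cp q (red q z) := by
      simp_rw [sq, Finset.sum_mul_sum]
      rw [Finset.sum_comm]
      refine Finset.sum_congr rfl fun p _ => ?_
      rw [Finset.sum_comm]
    rw [h1]
    calc ∑ p ∈ S, ∑ q ∈ S, ∑ z : ι → ZMod N, ph G cp p (red p z) * ph G cp q (red q z)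
        = ∑ p ∈ S, ∑ z : ι → ZMod N, ph G cp p (red p z) * ph G cp p (red p z) := by
          refine Finset.sum_congr rfl fun p hp => ?_
          exact Finset.sum_eq_single_of_mem p hp fun q hq hqp => hoff p hp q hq (Ne.symm hqp)
      _ ≤ ∑ _p ∈ S, (N : ℝ) ^ d / 4 := Finset.sum_le_sum hdiag
      _ = S.card * ((N : ℝ) ^ d / 4) := by rw [Finset.sum_const, nsmul_eq_mul]
  -- the bad set
  set B : Finset (ι → ZMod N) := univ.filter fun z => ((S.filter fun p => red p z ∈ G p).card : ℝ) < (c - ε) * S.card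
    with hB
  have hcard : Nat.card {a : ι → Fin (∏ p ∈ S, p) //
      (Nat.card {p : ℕ // p ∈ S ∧ (fun i => ((a i : ℕ) : ZMod p)) ∈ G p} : ℝ) < (c - ε) * S.card} = B.card := by
    rw [← hN]
    let e : Fin N ≃ ZMod N :=
      { toFun := fun a => ((a : ℕ) : ZMod N)
        invFun := fun z => ⟨z.val, z.val_lt⟩
        left_inv := fun a => by
          apply Fin.ext
          show ((a : ℕ) : ZMod N).val = a
          rw [ZMod.val_natCast, Nat.mod_eq_of_lt a.2]
        right_inv := fun z => ZMod.natCast_zmod_val z }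
    have he : ∀ a : Fin N, (e a).val = (a : ℕ) := fun a => by
      show ((a : ℕ) : ZMod N).val = a
      rw [ZMod.val_natCast, Nat.mod_eq_of_lt a.2]
    have h1 : B.card = Nat.card {z : ι → ZMod N // z ∈ B} := by
      rw [Nat.card_eq_fintype_card, Fintype.card_coe]
    rw [h1]
    refine Nat.card_congr (((Equiv.refl ι).arrowCongr e).subtypeEquiv fun a => ?_)
    rw [hB, Finset.mem_filter]
    have h2 : Nat.card {p : ℕ // p ∈ S ∧ (fun i => ((a i : ℕ) : ZMod p)) ∈ G p} =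
        (S.filter fun p => red p (((Equiv.refl ι).arrowCongr e) a) ∈ G p).card := by
      refine Nat.subtype_card _ fun p => ?_
      rw [Finset.mem_filter]
      have h3 : red p (((Equiv.refl ι).arrowCongr e) a) = fun i => ((a i : ℕ) : ZMod p) := by
        funext i
        show (((e (a i)).val : ℕ) : ZMod p) = _
        rw [he]
      rw [h3]
    rw [h2]
    simp
  rw [hcard]
  rcases Nat.eq_zero_or_pos S.card with h0 | h0
  · rw [h0]
    simp
  have h0' : (0 : ℝ) < S.card := by exact_mod_cast h0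
  -- Chebyshev
  have hbad : ∀ z ∈ B, (ε * S.card) ^ 2 ≤ (∑ p ∈ S, ph G cp p (red p z)) ^ 2 := by
    intro z hz
    rw [hB, Finset.mem_filter] at hz
    have h1 : ∑ p ∈ S, ph G cp p (red p z) = (S.filter fun p => red p z ∈ G p).card - ∑ p ∈ S, cp p := by
      unfold ph
      rw [Finset.sum_sub_distrib, Finset.sum_boole]
    have h2 : c * S.card ≤ ∑ p ∈ S, cp p := by
      calc c * S.card = ∑ _p ∈ S, c := by rw [Finset.sum_const, nsmul_eq_mul]; ring
        _ ≤ _ := Finset.sum_le_sum hcge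
    have h3 : ε * S.card ≤ -∑ p ∈ S, ph G cp p (red p z) := by
      rw [h1]
      linarith [hz.2]
    rw [← neg_sq (∑ p ∈ S, ph G cp p (red p z))]
    exact pow_le_pow_left₀ (by positivity) h3 2
  have hche : (B.card : ℝ) * (ε * S.card) ^ 2 ≤ S.card * ((N : ℝ) ^ d / 4) := by
    calc (B.card : ℝ) * (ε * S.card) ^ 2 = ∑ _z ∈ B, (ε * S.card) ^ 2 := by rw [Finset.sum_const, nsmul_eq_mul]
      _ ≤ ∑ z ∈ B, (∑ p ∈ S, ph G cp p (red p z)) ^ 2 := Finset.sum_le_sum hbad
      _ ≤ ∑ z : ι → ZMod N, (∑ p ∈ S, ph G cp p (red p z)) ^ 2 :=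
        Finset.sum_le_univ_sum_of_nonneg fun z => sq_nonneg _
      _ ≤ _ := hsec
  by_contra hcon
  push Not at hcon
  have h7 := mul_lt_mul_of_pos_left hcon h0'
  nlinarith

end Pool.Agent.H47.PF.CHEB
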