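import Pool.Agent.H47.PF.Stm

/-! # PF-CYC: the proportion of the cyclic vectors -/

set_option autoImplicit false

namespace Pool.Agent.H47.PF.CYC

open Matrix Polynomial

theorem cyc_mono {F : Type} [Field F] {I : Type} [Fintype I] [DecidableEq I] (E : Matrix I I F)
    (e : I → F) (i : ℕ) (w : Matrix I I F) (h : Cyc E e (i + 1) w) : Cyc E e i w := by
  unfold Cyc at h ⊢
  exact h.comp (fun j : Fin i => j.castSucc) (Fin.castSucc_injective i)

theorem main (hstep : S_STEP) : S_CYC := by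
  intro F _ _ I _ _ E e g hE hdet hI hg he
  classical
  have hF : Fintype F := Fintype.ofFinite F
  obtain ⟨q, hq⟩ : ∃ q : ℕ, q = Nat.card F := ⟨_, rfl⟩
  have hq2 : 1 < q := by rw [hq]; exact Finite.one_lt_card
  have hq0 : (0 : ℝ) < q := by exact_mod_cast (by omega : 0 < q)
  set N : ℕ → ℕ := fun i => Nat.card {w : Matrix I I F // Cyc E e i w} with hN
  have hstep' : ∀ i : ℕ, i + 2 ≤ g →
      (N (i + 2) : ℝ) = (1 - 1 / (q : ℝ) ^ (2 * (g - 1 - i))) * N (i + 1) := by
    intro i hi
    have h1 := hstep F I E e g hE hdet hI i hi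
    rw [← hq] at h1
    have h2 : Nat.card {w : Matrix I I F // Cyc E e (i + 1) w ∧ ¬ Cyc E e (i + 2) w} + N (i + 2) =
        N (i + 1) := by
      simp only [hN]
      rw [Nat.card_eq_fintype_card, Nat.card_eq_fintype_card, Nat.card_eq_fintype_card,
        Fintype.card_subtype, Fintype.card_subtype, Fintype.card_subtype]
      rw [← Finset.card_filter_add_card_filter_not (s := Finset.univ.filter fun w : Matrix I I F =>
        Cyc E e (i + 1) w) (p := fun w => Cyc E e (i + 2) w), Finset.filter_filter,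
        Finset.filter_filter, add_comm]
      congr 2
      ext w
      simp only [Finset.mem_filter, Finset.mem_univ, true_and]
      exact ⟨fun h => ⟨cyc_mono E e _ w h, h⟩, fun h => h.2⟩
    have h3 : (q : ℝ) ^ (2 * g - i - 1) *
        Nat.card {w : Matrix I I F // Cyc E e (i + 1) w ∧ ¬ Cyc E e (i + 2) w} =
        (q : ℝ) ^ (i + 1) * N (i + 1) := by exact_mod_cast h1
    have h4 : (Nat.card {w : Matrix I I F // Cyc E e (i + 1) w ∧ ¬ Cyc E e (i + 2) w} : ℝ) +
        N (i + 2) = N (i + 1) := by exact_mod_cast h2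
    have h5 : 2 * g - i - 1 = 2 * (g - 1 - i) + (i + 1) := by omega
    rw [h5, pow_add] at h3
    have hp1 : (0 : ℝ) < (q : ℝ) ^ (2 * (g - 1 - i)) := by positivity
    have hp2 : (0 : ℝ) < (q : ℝ) ^ (i + 1) := by positivity
    have h6 : (q : ℝ) ^ (2 * (g - 1 - i)) *
        Nat.card {w : Matrix I I F // Cyc E e (i + 1) w ∧ ¬ Cyc E e (i + 2) w} = N (i + 1) := by
      have h7 : (q : ℝ) ^ (i + 1) * ((q : ℝ) ^ (2 * (g - 1 - i)) *
          Nat.card {w : Matrix I I F // Cyc E e (i + 1) w ∧ ¬ Cyc E e (i + 2) w}) =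
          (q : ℝ) ^ (i + 1) * N (i + 1) := by
        rw [← h3]; ring
      exact mul_left_cancel₀ hp2.ne' h7
    rw [sub_mul, one_mul, one_div, ← h6, ← mul_assoc, inv_mul_cancel₀ hp1.ne', one_mul]
    rw [h6]
    linarith
  have hprod : ∀ i : ℕ, i + 1 ≤ g → (N (i + 1) : ℝ) =
      (∏ j ∈ Finset.range i, (1 - 1 / (q : ℝ) ^ (2 * (g - 1 - j)))) * N 1 := by
    intro i
    induction i with
    | zero => intro _; simp
    | succ i ih =>
      intro hi
      rw [hstep' i (by omega), ih (by omega), Finset.prod_range_succ]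
      ring
  have h1 : N 1 = Nat.card (Matrix I I F) := by
    simp only [hN]
    refine Nat.card_congr (Equiv.subtypeUnivEquiv fun w => ?_)
    unfold Cyc
    rw [linearIndependent_unique_iff]
    show ((E⁻¹ * (w - wᵀ)) ^ ((default : Fin 1) : ℕ)) *ᵥ e ≠ 0
    have : ((default : Fin 1) : ℕ) = 0 := rfl
    rw [this, pow_zero, one_mulVec]
    exact he
  have h2 := hprod (g - 1) (by omega)
  have h3 : g - 1 + 1 = g := by omega
  rw [h3, h1] at h2
  have h4 : ∏ m ∈ Finset.range (g - 1), (1 - 1 / (Nat.card F : ℝ) ^ (2 * (m + 1))) =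
      ∏ j ∈ Finset.range (g - 1), (1 - 1 / (q : ℝ) ^ (2 * (g - 1 - j))) := by
    rw [← Finset.prod_range_reflect, ← hq]
    refine Finset.prod_congr rfl fun j hj => ?_
    rw [Finset.mem_range] at hj
    have : g - 1 - 1 - j + 1 = g - 1 - j := by omega
    rw [this]
  rw [h4, ← h2]

end Pool.Agent.H47.PF.CYC
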