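import Pool.Agent.H47.PF.Stm

set_option autoImplicit false

namespace Pool.Agent.H47.PF.DIM

open Matrix

theorem main : S_DIM := by
  intro F _ _ I _ _ E hE i τ hτ
  set L : (I → F) →ₗ[F] (Fin i → F) := Matrix.mulVecLin (Matrix.of τ * E) with hL
  have hLa : ∀ u j, L u j = τ j ⬝ᵥ (E *ᵥ u) := by
    intro u j
    rw [hL, Matrix.mulVecLin_apply, ← Matrix.mulVec_mulVec]
    rfl
  have h1 : Module.finrank F (LinearMap.range L) = i := by
    have h2 : (Matrix.of τ * E).rank = (Matrix.of τ).rank :=
      Matrix.rank_mul_eq_left_of_isUnit_det E (Matrix.of τ) hE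
    have h3 : (Matrix.of τ).rank = Fintype.card (Fin i) := LinearIndependent.rank_matrix hτ
    rw [Fintype.card_fin] at h3
    exact h2.trans h3
  have h4 := LinearMap.finrank_range_add_finrank_ker L
  rw [h1, Module.finrank_fintype_fun_eq_card] at h4
  have h5 : Nat.card {u : I → F // ∀ j, τ j ⬝ᵥ (E *ᵥ u) = 0} = Nat.card (LinearMap.ker L) := by
    refine Nat.card_congr (Equiv.subtypeEquivRight fun u => ?_)
    rw [LinearMap.mem_ker, funext_iff]
    exact forall_congr' fun j => by rw [hLa]; rfl
  rw [h5, Module.natCard_eq_pow_finrank (K := F)]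
  congr 1
  omega

end Pool.Agent.H47.PF.DIM
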