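import Pool.Agent.H47.PF.Stm

set_option autoImplicit false

/-! # Project PF, stub FIB (helper73) -/

namespace Pool.Agent.H47.PF.FIB

open Matrix Polynomial Pool.Agent.H47.PF

variable {F : Type} [Field F] {I : Type} [Fintype I] [DecidableEq I]

theorem chain_zero (E : Matrix I I F) (e : I → F) (w : Matrix I I F) : chain E e w 0 = e := by
  simp [chain]

theorem chain_succ (E : Matrix I I F) (e : I → F) (w : Matrix I I F) (j : ℕ) :
    chain E e w (j + 1) = (E⁻¹ * (w - wᵀ)) *ᵥ chain E e w j := by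
  unfold chain
  rw [Matrix.mulVec_mulVec, ← pow_succ']

theorem inv_iff {E : Matrix I I F} (hu : IsUnit E.det) (A : Matrix I I F) (x y : I → F) :
    (E⁻¹ * A) *ᵥ x = y ↔ A *ᵥ x = E *ᵥ y := by
  constructor
  · rintro rfl
    rw [Matrix.mulVec_mulVec, ← Matrix.mul_assoc, Matrix.mul_nonsing_inv _ hu, Matrix.one_mul]
  · intro h
    rw [← Matrix.mulVec_mulVec, h, Matrix.mulVec_mulVec, Matrix.nonsing_inv_mul _ hu,
      Matrix.one_mulVec]

theorem cond_iff {E : Matrix I I F} (hu : IsUnit E.det) (e : I → F) (w : Matrix I I F) {i : ℕ}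
    (τ : Fin (i + 1) → I → F) (u : I → F) :
    ((∀ j : Fin (i + 1), chain E e w j = τ j) ∧ chain E e w (i + 1) = u) ↔
      (e = τ 0 ∧ ((∀ j : Fin i, (w - wᵀ) *ᵥ τ j.castSucc = E *ᵥ τ j.succ) ∧
        (w - wᵀ) *ᵥ τ (Fin.last i) = E *ᵥ u)) := by
  constructor
  · rintro ⟨h1, h2⟩
    refine ⟨?_, fun j => ?_, ?_⟩
    · rw [← h1 0]
      exact (chain_zero E e w).symm
    · rw [← inv_iff hu, ← h1 j.castSucc, ← h1 j.succ, Fin.val_castSucc, Fin.val_succ, chain_succ]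
    · rw [← inv_iff hu, ← h1 (Fin.last i), Fin.val_last, ← h2, chain_succ]
  · rintro ⟨h0, h1, h2⟩
    have h3 : ∀ j : ℕ, ∀ hj : j < i + 1, chain E e w j = τ ⟨j, hj⟩ := by
      intro j
      induction j with
      | zero =>
        intro hj
        rw [chain_zero, h0]
        rfl
      | succ j ih =>
        intro hj
        have h4 := h1 ⟨j, by omega⟩
        rw [chain_succ, ih (by omega), inv_iff hu]
        exact h4
    refine ⟨fun j => h3 j j.2, ?_⟩
    rw [chain_succ, h3 i (by omega), inv_iff hu]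
    exact h2

theorem main (h : S_UNI) : S_FIB := by
  intro F _ _ I _ _ E e hu i τ u u' hτ h1 h2
  have e1 : ∀ v : I → F, Nat.card {w : Matrix I I F //
      (∀ j : Fin (i + 1), chain E e w j = τ j) ∧ chain E e w (i + 1) = v} =
      Nat.card {w : Matrix I I F // e = τ 0 ∧
        ((∀ j : Fin i, (w - wᵀ) *ᵥ τ j.castSucc = E *ᵥ τ j.succ) ∧
        (w - wᵀ) *ᵥ τ (Fin.last i) = E *ᵥ v)} := fun v =>
    Nat.card_congr (Equiv.subtypeEquivRight fun w => cond_iff hu e w τ v)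
  rw [e1, e1]
  by_cases he : e = τ 0
  · have e2 : ∀ v : I → F, Nat.card {w : Matrix I I F // e = τ 0 ∧
        ((∀ j : Fin i, (w - wᵀ) *ᵥ τ j.castSucc = E *ᵥ τ j.succ) ∧
        (w - wᵀ) *ᵥ τ (Fin.last i) = E *ᵥ v)} = Nat.card {w : Matrix I I F //
        (∀ j : Fin i, (w - wᵀ) *ᵥ τ j.castSucc = E *ᵥ τ j.succ) ∧
        (w - wᵀ) *ᵥ τ (Fin.last i) = E *ᵥ v} := fun v =>
      Nat.card_congr (Equiv.subtypeEquivRight fun w => and_iff_right he)
    rw [e2, e2]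
    have h3 := h F I i τ (fun j => E *ᵥ τ j.succ) (E *ᵥ u) (E *ᵥ u' - E *ᵥ u) hτ (fun j => by
      rw [dotProduct_sub, h1 j, h2 j, sub_zero])
    rw [add_sub_cancel] at h3
    exact h3
  · have e2 : ∀ v : I → F, Nat.card {w : Matrix I I F // e = τ 0 ∧
        ((∀ j : Fin i, (w - wᵀ) *ᵥ τ j.castSucc = E *ᵥ τ j.succ) ∧
        (w - wᵀ) *ᵥ τ (Fin.last i) = E *ᵥ v)} = 0 := by
      intro v
      have : IsEmpty {w : Matrix I I F // e = τ 0 ∧
        ((∀ j : Fin i, (w - wᵀ) *ᵥ τ j.castSucc = E *ᵥ τ j.succ) ∧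
        (w - wᵀ) *ᵥ τ (Fin.last i) = E *ᵥ v)} := ⟨fun w => he w.2.1⟩
      exact Nat.card_of_isEmpty
    rw [e2, e2]

end Pool.Agent.H47.PF.FIB
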