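import Pool.Agent.H47.PF.Stm

/-! # PF-LIM -/

set_option autoImplicit false

namespace Pool.Agent.H47.PF.LIM

open Filter Topology

lemma choose_lim (k : ℕ) : Tendsto (fun q : ℕ => (q.choose k : ℝ) / (q : ℝ) ^ k) atTop
    (𝓝 (1 / (k.factorial : ℝ))) := by
  induction k with
  | zero => simp
  | succ k ih =>
    have h1 : Tendsto (fun q : ℕ => (1 - (k : ℝ) / q) / ((k : ℝ) + 1)) atTop
        (𝓝 ((1 - 0) / ((k : ℝ) + 1))) := by
      refine Tendsto.div_const ?_ _
      exact tendsto_const_nhds.sub (tendsto_const_nhds.div_atTop tendsto_natCast_atTop_atTop)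
    have h2 := ih.mul h1
    have h3 : (1 / (k.factorial : ℝ)) * ((1 - 0) / ((k : ℝ) + 1)) =
        1 / ((k + 1).factorial : ℝ) := by
      rw [Nat.factorial_succ]
      push_cast
      field_simp
      ring
    rw [h3] at h2
    refine h2.congr' ?_
    filter_upwards [eventually_ge_atTop (k + 1)] with q hq
    have hq0 : (q : ℝ) ≠ 0 := by
      have : q ≠ 0 := by omega
      exact_mod_cast this
    have h4 : (q.choose (k + 1) : ℝ) * ((k : ℝ) + 1) = q.choose k * ((q : ℝ) - k) := by
      have h5 := Nat.choose_succ_right_eq q k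
      have h6 : ((q - k : ℕ) : ℝ) = (q : ℝ) - k := by
        rw [Nat.cast_sub (by omega)]
      rw [← h6]
      exact_mod_cast h5
    have hk : (k : ℝ) + 1 ≠ 0 := by positivity
    have h7 : (q.choose (k + 1) : ℝ) = q.choose k * ((q : ℝ) - k) / ((k : ℝ) + 1) := by
      rw [← h4]
      field_simp
    rw [h7, pow_succ]
    field_simp

theorem main : S_LIM := by
  intro g
  have h1 : Tendsto (fun q : ℕ => ∏ m ∈ Finset.range (g - 1), (1 - 1 / (q : ℝ) ^ (2 * (m + 1))))
      atTop (𝓝 (∏ _m ∈ Finset.range (g - 1), (1 : ℝ))) := by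
    refine tendsto_finsetProd _ fun m _ => ?_
    have h2 : Tendsto (fun q : ℕ => 1 / (q : ℝ) ^ (2 * (m + 1))) atTop (𝓝 0) :=
      tendsto_const_nhds.div_atTop
        ((tendsto_pow_atTop (by omega)).comp tendsto_natCast_atTop_atTop)
    have h3 := h2.const_sub 1
    rwa [sub_zero] at h3
  rw [Finset.prod_const_one] at h1
  have h4 : Tendsto (fun q : ℕ => ∑ k ∈ Finset.range (g + 1), (-1) ^ k * (q.choose k : ℝ) / (q : ℝ) ^ k)
      atTop (𝓝 (∑ k ∈ Finset.range (g + 1), (-1) ^ k / (k.factorial : ℝ))) := by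
    refine tendsto_finsetSum _ fun k _ => ?_
    have h5 := (choose_lim k).const_mul ((-1 : ℝ) ^ k)
    rw [mul_one_div] at h5
    refine h5.congr fun q => ?_
    rw [mul_div_assoc]
  have h6 : Tendsto (fun q : ℕ => 1 / (q : ℝ)) atTop (𝓝 0) :=
    tendsto_const_nhds.div_atTop tendsto_natCast_atTop_atTop
  have h7 := h1.mul ((h4.const_sub 1).sub h6)
  rw [one_mul, sub_zero] at h7
  exact h7

end Pool.Agent.H47.PF.LIM
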