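import Pool.Agent.H47.PF.Stm

/-! # PF-MULT -/

set_option autoImplicit false

namespace Pool.Agent.H47.PF.MULT

open Matrix Polynomial

theorem main : S_MULT := by
  classical
  intro F _ _ g hg
  rcases Nat.lt_or_ge g 2 with h2 | h2
  · have hg1 : g = 1 := by omega
    subst hg1
    have he : IsEmpty {c : Fin 1 → F // ∃ x : F, x ^ 1 + ∑ j : Fin 1, c j * x ^ (j : ℕ) = 0 ∧
        ((1 : ℕ) : F) * x ^ (1 - 1) + ∑ j : Fin 1, (j : ℕ) * c j * x ^ ((j : ℕ) - 1) = 0} := by
      refine ⟨fun ⟨c, x, _, h⟩ => ?_⟩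
      simp at h
    rw [Nat.card_of_isEmpty]
    exact Nat.zero_le _
  · obtain ⟨n, rfl⟩ := Nat.exists_eq_add_of_le h2
    rw [show 2 + n = n + 2 by ring]
    choose! x hx1 hx2 using fun (c : {c : Fin (n + 2) → F // ∃ x : F, x ^ (n + 2) +
      ∑ j : Fin (n + 2), c j * x ^ (j : ℕ) = 0 ∧
      ((n + 2 : ℕ) : F) * x ^ (n + 2 - 1) + ∑ j : Fin (n + 2), (j : ℕ) * c j * x ^ ((j : ℕ) - 1) = 0}) =>
        c.2
    have hinj : Function.Injective (fun c : {c : Fin (n + 2) → F // ∃ x : F, x ^ (n + 2) +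
      ∑ j : Fin (n + 2), c j * x ^ (j : ℕ) = 0 ∧
      ((n + 2 : ℕ) : F) * x ^ (n + 2 - 1) + ∑ j : Fin (n + 2), (j : ℕ) * c j * x ^ ((j : ℕ) - 1) = 0} =>
        ((x c, fun i : Fin n => c.1 i.succ.succ) : F × (Fin n → F))) := by
      intro c c' h
      rw [Prod.mk.injEq] at h
      obtain ⟨hx, hc⟩ := h
      have a1 := hx1 c
      have a2 := hx2 c
      have b1 := hx1 c'
      have b2 := hx2 c'
      rw [← hx] at b1 b2
      rw [Fin.sum_univ_succ, Fin.sum_univ_succ] at a1 a2 b1 b2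
      have hc' : ∀ i : Fin n, c.1 i.succ.succ = c'.1 i.succ.succ := fun i => congrFun hc i
      simp only [hc'] at a1 a2
      have c1 : c.1 (Fin.succ 0) = c'.1 (Fin.succ 0) := by
        simp only [Fin.val_zero, Fin.val_succ] at a2 b2
        have := a2.trans b2.symm
        simpa using this
      have c0 : c.1 0 = c'.1 0 := by
        rw [c1] at a1
        have := a1.trans b1.symm
        simpa using this
      apply Subtype.ext
      funext j
      refine Fin.cases c0 (fun j => ?_) j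
      refine Fin.cases c1 (fun j => ?_) j
      exact hc' j
    refine (Nat.card_le_card_of_injective _ hinj).trans (le_of_eq ?_)
    rw [Nat.card_prod, Nat.card_fun, Nat.card_eq_fintype_card, Nat.card_eq_fintype_card,
      Fintype.card_fin, show n + 2 - 1 = n + 1 by omega, pow_succ]
    ring

end Pool.Agent.H47.PF.MULT
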