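import Pool.Agent.H47.PF.Stm

/-! # PF-NOROOT: the number of the monic polynomials without zeros -/

set_option autoImplicit false

namespace Pool.Agent.H47.PF.NOROOT

open Matrix Polynomial

/-- the evaluation at the points of `T` -/
noncomputable def ev {F : Type} [Field F] (g : ℕ) (T : Finset F) : (Fin g → F) →ₗ[F] (T → F) where
  toFun c x := ∑ j : Fin g, c j * (x : F) ^ (j : ℕ)
  map_add' c c' := by
    funext x
    simp only [Pi.add_apply, add_mul, Finset.sum_add_distrib]
  map_smul' a c := by
    funext x
    simp only [Pi.smul_apply, smul_eq_mul, RingHom.id_apply, Finset.mul_sum, mul_assoc]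

theorem ev_surjective {F : Type} [Field F] [DecidableEq F] (g : ℕ) (T : Finset F) (hT : T.card ≤ g) :
    Function.Surjective (ev g T) := by
  intro y
  set y' : F → F := fun x => if h : x ∈ T then y ⟨x, h⟩ else 0 with hy'
  set p : F[X] := Lagrange.interpolate T id y' with hp
  have hinj : Set.InjOn (id : F → F) T := Function.injective_id.injOn
  have hdeg : p.degree < T.card := Lagrange.degree_interpolate_lt y' hinj
  refine ⟨fun j => p.coeff j, ?_⟩
  funext x
  show ∑ j : Fin g, p.coeff j * (x : F) ^ (j : ℕ) = y x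
  have h1 : p.eval (x : F) = y' x := Lagrange.eval_interpolate_at_node y' hinj x.2
  have h2 : y' x = y x := by simp [hy']
  rw [← h2, ← h1]
  have hpos : 0 < T.card := Finset.card_pos.2 ⟨x.1, x.2⟩
  have hnd : p.natDegree < g := by
    by_cases h0 : p = 0
    · rw [h0, Polynomial.natDegree_zero]; omega
    · exact ((Polynomial.natDegree_lt_iff_degree_lt h0).2 hdeg).trans_le hT
  rw [Polynomial.eval_eq_sum_range' hnd, Finset.sum_range]

open Classical in
theorem count {F : Type} [Field F] [Fintype F] (g : ℕ) (T : Finset F) :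
    (Finset.univ.filter fun c : Fin g → F => ∀ x ∈ T, x ^ g + ∑ j : Fin g, c j * x ^ (j : ℕ) = 0).card =
      if T.card ≤ g then Fintype.card F ^ (g - T.card) else 0 := by
  split_ifs with hT
  · -- the fibre
    obtain ⟨c0, hc0⟩ := ev_surjective g T hT (fun x => -(x : F) ^ g)
    have h1 : (Finset.univ.filter fun c : Fin g → F =>
        ∀ x ∈ T, x ^ g + ∑ j : Fin g, c j * x ^ (j : ℕ) = 0).card =
        Fintype.card (LinearMap.ker (ev g T)) := by
      rw [← Fintype.card_subtype]
      refine Fintype.card_congr ?_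
      refine ⟨fun c => ⟨c.1 - c0, ?_⟩, fun c => ⟨c.1 + c0, ?_⟩, ?_, ?_⟩
      · rw [LinearMap.mem_ker, map_sub, hc0]
        funext x
        have := c.2 x.1 x.2
        show (∑ j : Fin g, c.1 j * (x : F) ^ (j : ℕ)) - -(x : F) ^ g = 0
        linear_combination this
      · intro x hx
        have h2 : ev g T (c.1 + c0) = fun x : T => -(x : F) ^ g := by
          rw [map_add, hc0, LinearMap.mem_ker.1 c.2, zero_add]
        have h3 := congrFun h2 ⟨x, hx⟩
        have h4 : (∑ j : Fin g, (c.1 + c0) j * x ^ (j : ℕ)) = -x ^ g := h3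
        rw [h4]
        ring
      · intro c
        apply Subtype.ext
        simp
      · intro c
        apply Subtype.ext
        simp
    rw [h1, Module.card_eq_pow_finrank (K := F) (V := LinearMap.ker (ev g T))]
    congr 1
    have h2 := LinearMap.finrank_range_add_finrank_ker (ev g T)
    rw [LinearMap.range_eq_top.2 (ev_surjective g T hT), finrank_top,
      Module.finrank_fintype_fun_eq_card, Module.finrank_fintype_fun_eq_card, Fintype.card_fin,
      Fintype.card_coe] at h2
    omega
  · rw [Finset.card_eq_zero, Finset.filter_eq_empty_iff]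
    intro c _ hc
    apply hT
    have hd : (∑ j : Fin g, C (c j) * X ^ (j : ℕ) : F[X]).degree < g := degree_sum_fin_lt c
    have hm : (X ^ g + ∑ j : Fin g, C (c j) * X ^ (j : ℕ) : F[X]).Monic := monic_X_pow_add hd
    have hn : (X ^ g + ∑ j : Fin g, C (c j) * X ^ (j : ℕ) : F[X]).natDegree = g := by
      rw [add_comm, natDegree_add_eq_right_of_degree_lt (by rw [degree_X_pow]; exact hd),
        natDegree_X_pow]
    have hsub : T ⊆ (X ^ g + ∑ j : Fin g, C (c j) * X ^ (j : ℕ) : F[X]).roots.toFinset := by
      intro x hx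
      rw [Multiset.mem_toFinset, mem_roots hm.ne_zero, IsRoot, eval_add, eval_finsetSum]
      simpa using hc x hx
    calc T.card ≤ _ := Finset.card_le_card hsub
      _ ≤ _ := Multiset.toFinset_card_le _
      _ ≤ _ := card_roots' _
      _ = g := hn

theorem main : S_NOROOT := by
  intro F _ _ g
  classical
  set Z : (Fin g → F) → Finset F := fun c =>
    Finset.univ.filter fun x : F => x ^ g + ∑ j : Fin g, c j * x ^ (j : ℕ) = 0 with hZ
  have h1 : (Nat.card {c : Fin g → F // ∀ x : F, x ^ g + ∑ j : Fin g, c j * x ^ (j : ℕ) ≠ 0} : ℤ) =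
      ∑ c : Fin g → F, ∑ T ∈ (Finset.univ : Finset F).powerset,
        if T ⊆ Z c then (-1 : ℤ) ^ T.card else 0 := by
    rw [Nat.card_eq_fintype_card, Fintype.card_subtype, Finset.card_eq_sum_ones, Finset.sum_filter]
    push_cast
    refine Finset.sum_congr rfl fun c _ => ?_
    rw [← Finset.sum_filter]
    have h2 : (Finset.univ : Finset F).powerset.filter (fun T => T ⊆ Z c) = (Z c).powerset := by
      ext T
      simp
    rw [h2, Finset.sum_powerset_neg_one_pow_card]
    have h3 : (∀ x : F, x ^ g + ∑ j : Fin g, c j * x ^ (j : ℕ) ≠ 0) ↔ Z c = ∅ := by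
      simp only [hZ]
      rw [Finset.filter_eq_empty_iff]
      simp
    simp only [h3]
  rw [h1, Finset.sum_comm]
  set ψ : ℕ → ℤ := fun k : ℕ =>
    (-1 : ℤ) ^ k * ((if k ≤ g then Fintype.card F ^ (g - k) else 0 : ℕ) : ℤ) with hψ
  have h2 : ∀ T ∈ (Finset.univ : Finset F).powerset,
      (∑ c : Fin g → F, if T ⊆ Z c then (-1 : ℤ) ^ T.card else 0) =
      ψ T.card := by
    intro T _
    simp only [hψ]
    rw [← Finset.sum_filter, Finset.sum_const, nsmul_eq_mul, mul_comm]
    congr 2
    rw [← count g T]
    congr 1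
    ext c
    simp only [Finset.mem_filter, Finset.mem_univ, true_and, hZ, Finset.subset_iff]
  rw [Finset.sum_congr rfl h2, Finset.sum_powerset_apply_card ψ, Finset.card_univ]
  -- the ranges of the summation
  set φ : ℕ → ℤ := fun k => (Fintype.card F).choose k •
    ((-1 : ℤ) ^ k * ((if k ≤ g then Fintype.card F ^ (g - k) else 0 : ℕ) : ℤ)) with hφ
  have h3 : ∑ k ∈ Finset.range (Fintype.card F + 1), φ k =
      ∑ k ∈ Finset.range (Fintype.card F + g + 1), φ k := by
    refine Finset.sum_subset (Finset.range_subset_range.2 (by omega)) fun k _ hk => ?_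
    rw [Finset.mem_range] at hk
    simp only [hφ]
    rw [Nat.choose_eq_zero_of_lt (by omega), zero_smul]
  have h4 : ∑ k ∈ Finset.range (g + 1), φ k =
      ∑ k ∈ Finset.range (Fintype.card F + g + 1), φ k := by
    refine Finset.sum_subset (Finset.range_subset_range.2 (by omega)) fun k _ hk => ?_
    rw [Finset.mem_range] at hk
    simp only [hφ]
    rw [if_neg (by omega)]
    simp
  show ∑ k ∈ Finset.range (Fintype.card F + 1), φ k = _
  rw [h3, ← h4]
  refine Finset.sum_congr rfl fun k hk => ?_
  rw [Finset.mem_range] at hk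
  simp only [hφ]
  rw [if_pos (by omega), nsmul_eq_mul]
  push_cast
  ring

end Pool.Agent.H47.PF.NOROOT
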