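import Pool.Agent.H47.PF.Stm

set_option autoImplicit false

/-! # Project PF, stub PRIMES (helper73) -/

namespace Pool.Agent.H47.PF.PRIMES

open Polynomial Pool.Agent.H47.PF

/-- a nonzero integral polynomial does not vanish on an arithmetic progression -/
theorem exists_nonroot {P : ℤ[X]} (hP : P ≠ 0) (a b : ℤ) (hb : b ≠ 0) :
    ∃ t : ℤ, P.eval (a + b * t) ≠ 0 := by
  have hinj : Function.Injective fun t : ℤ => a + b * t := by
    intro s t hst
    have h1 : b * s = b * t := by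
      have : a + b * s = a + b * t := hst
      linarith
    exact mul_left_cancel₀ hb h1
  have hinf : (Set.range fun t : ℤ => a + b * t).Infinite := Set.infinite_range_of_injective hinj
  obtain ⟨_, ⟨t, rfl⟩, ht⟩ := hinf.exists_notMem_finset P.roots.toFinset
  refine ⟨t, fun h => ht ?_⟩
  rw [Multiset.mem_toFinset, mem_roots hP]
  exact h

/-- Schur: infinitely many primes divide values of `h` -/
theorem schur {h : ℤ[X]} (hd : 0 < h.natDegree) (B : ℕ) :
    ∃ p : ℕ, p.Prime ∧ B < p ∧ ∃ x : ℤ, (p : ℤ) ∣ h.eval x := by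
  have hne : h ≠ 0 := by
    rintro rfl
    simp at hd
  obtain ⟨t₀, ht₀⟩ := exists_nonroot hne 0 1 one_ne_zero
  set x₀ : ℤ := 0 + 1 * t₀ with hx₀
  set N : ℤ := h.eval x₀ with hN
  set Q : ℤ := (B.factorial : ℤ) with hQ
  have hQ0 : Q ≠ 0 := by
    rw [hQ]
    exact_mod_cast B.factorial_ne_zero
  have hc : ∀ c : ℤ, h - C c ≠ 0 := by
    intro c h0
    have h1 : h = C c := sub_eq_zero.1 h0
    rw [h1, natDegree_C] at hd
    exact lt_irrefl _ hd
  obtain ⟨t, ht⟩ := exists_nonroot (P := h * ((h - C N) * (h - C (-N))))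
    (mul_ne_zero hne (mul_ne_zero (hc N) (hc (-N)))) x₀ (N * Q) (mul_ne_zero ht₀ hQ0)
  rw [eval_mul, eval_mul, eval_sub, eval_sub, eval_C, eval_C] at ht
  set y : ℤ := x₀ + N * Q * t with hy
  have ht1 : h.eval y ≠ 0 := left_ne_zero_of_mul ht
  have ht2 : h.eval y ≠ N := fun h0 => by
    rw [h0] at ht
    simp at ht
  have ht3 : h.eval y ≠ -N := fun h0 => by
    rw [h0] at ht
    simp at ht
  have hdvd : (N * Q) ∣ h.eval y - h.eval x₀ := by
    have h1 : y - x₀ ∣ h.eval y - h.eval x₀ := sub_dvd_eval_sub y x₀ h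
    refine dvd_trans ?_ h1
    rw [hy, add_sub_cancel_left]
    exact Dvd.intro _ rfl
  obtain ⟨s, hs⟩ := hdvd
  have hval : h.eval y = N * (1 + Q * s) := by
    have : h.eval y = h.eval x₀ + N * Q * s := by linarith
    rw [this, ← hN]
    ring
  have h1 : (1 + Q * s).natAbs ≠ 1 := by
    intro h0
    rcases Int.natAbs_eq_iff.1 h0 with h2 | h2
    · apply ht2
      rw [hval, h2]
      simp
    · apply ht3
      rw [hval, h2]
      simp
  obtain ⟨p, hp, hpd⟩ := Int.exists_prime_and_dvd h1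
  have hpn : (p.natAbs).Prime := Int.prime_iff_natAbs_prime.1 hp
  refine ⟨p.natAbs, hpn, ?_, y, ?_⟩
  · by_contra hB
    rw [not_lt] at hB
    have h2 : (p.natAbs) ∣ B.factorial := (hpn.dvd_factorial).2 hB
    have h3 : p ∣ Q := by
      rw [hQ]
      exact Int.natAbs_dvd.1 (by exact_mod_cast h2)
    have h4 : p ∣ 1 := by
      have h5 := dvd_sub hpd (Dvd.dvd.mul_right h3 s)
      rwa [add_sub_cancel_right] at h5
    exact hp.not_dvd_one h4
  · rw [hval]
    exact Int.natAbs_dvd.2 (Dvd.dvd.mul_left hpd _)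

/-- Hensel -/
theorem hensel {h U V : ℤ[X]} {c : ℤ} (hUV : U * h + V * derivative h = C c) {p : ℕ} (hp : p.Prime)
    (hpc : ¬ (p : ℤ) ∣ c) {x₀ : ℤ} (hx₀ : (p : ℤ) ∣ h.eval x₀) :
    ∀ m : ℕ, ∃ x : ℤ, (p : ℤ) ^ (m + 1) ∣ h.eval x := by
  intro m
  induction m with
  | zero => exact ⟨x₀, by simpa using hx₀⟩
  | succ m ih =>
    obtain ⟨x, r, hr⟩ := ih
    have hpx : (p : ℤ) ∣ h.eval x := by
      rw [hr]
      exact Dvd.dvd.mul_right (dvd_pow_self _ (by omega)) _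
    have hder : ¬ (p : ℤ) ∣ (derivative h).eval x := by
      intro h1
      apply hpc
      have h2 := congrArg (eval x) hUV
      rw [eval_add, eval_mul, eval_mul, eval_C] at h2
      rw [← h2]
      exact dvd_add (Dvd.dvd.mul_left hpx _) (Dvd.dvd.mul_left h1 _)
    have hcop : IsCoprime ((derivative h).eval x) (p : ℤ) :=
      ((Nat.prime_iff_prime_int.1 hp).coprime_iff_not_dvd.2 hder).symm
    obtain ⟨a, b, hab⟩ := hcop
    obtain ⟨k, hk⟩ := h.binomExpansion x ((p : ℤ) ^ (m + 1) * (-(r * a)))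
    refine ⟨x + (p : ℤ) ^ (m + 1) * (-(r * a)), ?_⟩
    rw [hk, hr]
    have e1 : (p : ℤ) ^ (m + 1) * r + (derivative h).eval x * ((p : ℤ) ^ (m + 1) * (-(r * a))) +
        k * ((p : ℤ) ^ (m + 1) * (-(r * a))) ^ 2 =
        (p : ℤ) ^ (m + 1 + 1) * (r * b + k * (p : ℤ) ^ m * (r * a) ^ 2) := by
      have e2 : r * (1 - a * (derivative h).eval x) = r * (b * p) := by
        rw [← hab]
        ring
      calc _ = (p : ℤ) ^ (m + 1) * (r * (1 - a * (derivative h).eval x)) +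
            k * ((p : ℤ) ^ (m + 1) * (-(r * a))) ^ 2 := by ring
        _ = _ := by
          rw [e2]
          ring
    rw [e1]
    exact Dvd.intro _ rfl

/-- clearing denominators -/
theorem clear (f : ℚ[X]) : ∃ (b : ℤ) (g : ℤ[X]), b ≠ 0 ∧
    g.map (algebraMap ℤ ℚ) = C (b : ℚ) * f := by
  obtain ⟨b, hbm, hb⟩ := IsLocalization.integerNormalization_spec (nonZeroDivisors ℤ) f
  refine ⟨b, IsLocalization.integerNormalization (nonZeroDivisors ℤ) f,
    nonZeroDivisors.ne_zero hbm, ?_⟩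
  have h1 : C (b : ℚ) = (b : ℚ[X]) := by simp
  rw [hb, h1, ← zsmul_eq_mul]

theorem main : S_PRIMES := by
  intro D hD
  have hD0 : D ≠ 0 := by
    rintro rfl
    simp at hD
  have hinjQ : Function.Injective (algebraMap ℤ ℚ) := (algebraMap ℤ ℚ).injective_int
  have hmapinj : Function.Injective (Polynomial.map (algebraMap ℤ ℚ)) :=
    Polynomial.map_injective _ hinjQ
  have hDQ : 0 < (D.map (algebraMap ℤ ℚ)).natDegree := by
    rwa [natDegree_map_eq_of_injective hinjQ]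
  obtain ⟨f, hf, g, hfg⟩ := exists_irreducible_of_natDegree_pos hDQ
  -- coprimality
  have hsep : IsCoprime f (derivative f) := hf.separable
  obtain ⟨u, v, huv⟩ := hsep
  obtain ⟨b₁, h, hb₁, hh⟩ := clear f
  obtain ⟨b₂, k, hb₂, hk⟩ := clear g
  obtain ⟨b₃, U, hb₃, hU⟩ := clear u
  obtain ⟨b₄, V, hb₄, hV⟩ := clear v
  have hfdeg : 0 < f.natDegree := hf.natDegree_pos
  have hhdeg : 0 < h.natDegree := by
    rw [← natDegree_map_eq_of_injective hinjQ, hh, natDegree_C_mul]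
    · exact hfdeg
    · exact_mod_cast hb₁
  have hND : C (b₁ * b₂) * D = h * k := by
    apply hmapinj
    rw [Polynomial.map_mul, Polynomial.map_mul, hh, hk, hfg, map_C]
    have : (algebraMap ℤ ℚ) (b₁ * b₂) = (b₁ : ℚ) * b₂ := by simp
    rw [this, C_mul]
    ring
  have hUV : (C b₄ * U) * h + (C b₃ * V) * derivative h = C (b₃ * b₄ * b₁) := by
    apply hmapinj
    rw [Polynomial.map_add, Polynomial.map_mul, Polynomial.map_mul, Polynomial.map_mul,
      Polynomial.map_mul, ← derivative_map, hh, hU, hV, map_C, map_C, map_C, derivative_C_mul]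
    have e1 : (algebraMap ℤ ℚ) (b₃ * b₄ * b₁) = (b₃ : ℚ) * b₄ * b₁ := by simp
    have e2 : (algebraMap ℤ ℚ) b₄ = (b₄ : ℚ) := by simp
    have e3 : (algebraMap ℤ ℚ) b₃ = (b₃ : ℚ) := by simp
    rw [e1, e2, e3, C_mul, C_mul]
    calc _ = C (b₃ : ℚ) * C (b₄ : ℚ) * C (b₁ : ℚ) * (u * f + v * derivative f) := by ring
      _ = _ := by rw [huv, mul_one]
  rw [Set.infinite_iff_exists_gt]
  intro B₀
  set cc : ℤ := b₃ * b₄ * b₁ * b₂ with hcc
  have hcc0 : cc ≠ 0 := mul_ne_zero (mul_ne_zero (mul_ne_zero hb₃ hb₄) hb₁) hb₂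
  obtain ⟨p, hp, hpB, x₀, hx₀⟩ := schur hhdeg (max B₀ cc.natAbs)
  have hpcc : ¬ (p : ℤ) ∣ cc := by
    intro h1
    have h2 : p ∣ cc.natAbs := Int.natCast_dvd.1 h1
    have h3 := Nat.le_of_dvd (Int.natAbs_pos.2 hcc0) h2
    have h4 := le_max_right B₀ cc.natAbs
    omega
  have hpc : ¬ (p : ℤ) ∣ b₃ * b₄ * b₁ := fun h1 => hpcc (Dvd.dvd.mul_right h1 _)
  have hpN : ¬ (p : ℤ) ∣ b₁ * b₂ := by
    intro h1
    apply hpcc
    rw [hcc, mul_assoc]
    exact Dvd.dvd.mul_left h1 _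
  have hpp : Prime (p : ℤ) := Nat.prime_iff_prime_int.1 hp
  refine ⟨p, ⟨hp, fun m => ?_⟩, (le_max_left _ _).trans_lt hpB⟩
  obtain ⟨x, hx⟩ := hensel hUV hp hpc hx₀ m
  obtain ⟨t, ht⟩ := exists_nonroot hD0 x ((p : ℤ) ^ (m + 1))
    (pow_ne_zero _ hpp.ne_zero)
  refine ⟨x + (p : ℤ) ^ (m + 1) * t, ?_, ht⟩
  have h1 : (p : ℤ) ^ (m + 1) ∣ h.eval (x + (p : ℤ) ^ (m + 1) * t) := by
    have h2 : (x + (p : ℤ) ^ (m + 1) * t) - x ∣ h.eval (x + (p : ℤ) ^ (m + 1) * t) - h.eval x :=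
      sub_dvd_eval_sub _ _ h
    rw [add_sub_cancel_left] at h2
    have h3 := dvd_add ((Dvd.intro t rfl).trans h2 : (p : ℤ) ^ (m + 1) ∣ _) hx
    rwa [sub_add_cancel] at h3
  have h2 : (p : ℤ) ^ (m + 1) ∣ (b₁ * b₂) * D.eval (x + (p : ℤ) ^ (m + 1) * t) := by
    have h3 := congrArg (eval (x + (p : ℤ) ^ (m + 1) * t)) hND
    rw [eval_mul, eval_mul, eval_C] at h3
    rw [h3]
    exact Dvd.dvd.mul_right h1 _
  have h3 : IsCoprime ((p : ℤ) ^ (m + 1)) (b₁ * b₂) :=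
    IsCoprime.pow_left (hpp.coprime_iff_not_dvd.2 hpN)
  exact (pow_dvd_pow _ (Nat.le_succ m)).trans (h3.dvd_of_dvd_mul_left h2)

end Pool.Agent.H47.PF.PRIMES
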