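import Pool.Agent.H47.PF.Stm

/-! # PF-ROOT -/

set_option autoImplicit false

namespace Pool.Agent.H47.PF.ROOT

open Matrix Polynomial

theorem main : S_ROOT := by
  intro F _ I _ _ E e g w c x hE hg hcyc hch hx
  set M : Matrix I I F := E⁻¹ * (w - wᵀ) with hM
  have hc : ∀ i, chain E e w i = (M ^ i) *ᵥ e := fun i => rfl
  set p : F[X] := ∑ j : Fin g, C (c j) * X ^ (j : ℕ) with hp
  set f : F[X] := X ^ g + p with hf
  have hpd : p.degree < g := Polynomial.degree_sum_fin_lt c
  have hfm : f.Monic := Polynomial.monic_X_pow_add hpd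
  have hfd : f.natDegree = g := by
    rw [hf]
    have hlt : p.degree < (X ^ g : F[X]).degree := by
      rw [Polynomial.degree_X_pow]
      exact hpd
    have h1 : (X ^ g + p : F[X]).degree = ((g : ℕ) : WithBot ℕ) := by
      rw [Polynomial.degree_add_eq_left_of_degree_lt hlt]
      exact Polynomial.degree_X_pow g
    exact Polynomial.natDegree_eq_of_degree_eq_some h1
  have hroot : f.IsRoot x := by
    rw [Polynomial.IsRoot.def, hf, hp, Polynomial.eval_add, Polynomial.eval_finsetSum]
    simpa using hx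
  obtain ⟨h, hh⟩ := Polynomial.dvd_iff_isRoot.2 hroot
  have hhm : h.Monic := Polynomial.Monic.of_mul_monic_left (Polynomial.monic_X_sub_C x)
    (by rw [← hh]; exact hfm)
  have hhd : h.natDegree + 1 = g := by
    have h2 : ((X - C x) * h).natDegree = 1 + h.natDegree := by
      rw [(Polynomial.monic_X_sub_C x).natDegree_mul hhm, Polynomial.natDegree_X_sub_C]
    rw [← hh, hfd] at h2
    omega
  -- the vector
  set u : I → F := (aeval M h) *ᵥ e with hu
  have hfu : (aeval M f) *ᵥ e = 0 := by
    rw [hf, hp, map_add, map_sum, Matrix.add_mulVec, Matrix.sum_mulVec]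
    simp only [map_mul, aeval_C, map_pow, aeval_X, ← Algebra.smul_def, Matrix.smul_mulVec]
    rw [hc] at hch
    simp only [hc] at hch
    rw [hch]
    simp
  have hu0 : u ≠ 0 := by
    intro h0
    have h3 : u = ∑ j : Fin g, h.coeff j • chain E e w j := by
      rw [hu, Polynomial.aeval_eq_sum_range' (show h.natDegree < g by omega), Matrix.sum_mulVec,
        ← Fin.sum_univ_eq_sum_range (fun i => (h.coeff i • M ^ i) *ᵥ e) g]
      exact Finset.sum_congr rfl fun j _ => by rw [Matrix.smul_mulVec, hc]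
    rw [h0] at h3
    have h4 := (Fintype.linearIndependent_iff.1 hcyc) (fun j : Fin g => h.coeff j) h3.symm
      ⟨g - 1, by omega⟩
    have h5 : h.coeff (g - 1) = 1 := by
      rw [show g - 1 = h.natDegree by omega]
      exact hhm
    simp only at h4
    rw [h5] at h4
    exact one_ne_zero h4
  have hMu : M *ᵥ u = x • u := by
    have h6 : (aeval M ((X - C x) * h)) *ᵥ e = M *ᵥ u - x • u := by
      rw [map_mul, map_sub, aeval_X, aeval_C, sub_mul, Matrix.sub_mulVec, ← Matrix.mulVec_mulVec,
        ← Algebra.smul_def, Matrix.smul_mulVec]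
    rw [← hh, hfu] at h6
    exact (sub_eq_zero.1 h6.symm)
  rw [← Matrix.exists_mulVec_eq_zero_iff]
  refine ⟨u, hu0, ?_⟩
  have h7 : w - wᵀ = E * M := by
    rw [hM, ← Matrix.mul_assoc, Matrix.mul_nonsing_inv E hE, Matrix.one_mul]
  rw [h7, Matrix.sub_mulVec, ← Matrix.mulVec_mulVec, hMu, Matrix.mulVec_smul, Matrix.smul_mulVec,
    sub_self]

end Pool.Agent.H47.PF.ROOT
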