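import Pool.Agent.H47.PF.Stm

/-! # PF-SIMPLE: simple roots of the Pfaffian characteristic polynomial -/

set_option autoImplicit false

namespace Pool.Agent.H47.PF.SIMPLE

open Matrix Polynomial

section

variable {F : Type} [Field F] {I : Type} [Fintype I] [DecidableEq I]

/-- the vector `p(M) e` -/
noncomputable def ev (M : Matrix I I F) (e : I → F) (p : F[X]) : I → F := (aeval M p) *ᵥ e

variable (M : Matrix I I F) (e : I → F)

lemma ev_add (p q : F[X]) : ev M e (p + q) = ev M e p + ev M e q := by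
  unfold ev; rw [map_add, Matrix.add_mulVec]

lemma ev_sub (p q : F[X]) : ev M e (p - q) = ev M e p - ev M e q := by
  unfold ev; rw [map_sub, Matrix.sub_mulVec]

lemma ev_mul (p q : F[X]) : ev M e (p * q) = (aeval M p) *ᵥ (ev M e q) := by
  unfold ev; rw [map_mul, Matrix.mulVec_mulVec]

lemma ev_C_mul (x : F) (q : F[X]) : ev M e (C x * q) = x • ev M e q := by
  rw [ev_mul, aeval_C, Algebra.algebraMap_eq_smul_one, Matrix.smul_mulVec, Matrix.one_mulVec]

lemma ev_X_mul (q : F[X]) : ev M e (X * q) = M *ᵥ ev M e q := by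
  rw [ev_mul, aeval_X]

lemma ev_X_pow (i : ℕ) : ev M e (X ^ i) = (M ^ i) *ᵥ e := by
  unfold ev; rw [map_pow, aeval_X]

lemma ev_sum {ι : Type} (s : Finset ι) (p : ι → F[X]) :
    ev M e (∑ i ∈ s, p i) = ∑ i ∈ s, ev M e (p i) := by
  classical
  induction s using Finset.induction_on with
  | empty => simp [ev]
  | insert a s ha ih => rw [Finset.sum_insert ha, Finset.sum_insert ha, ev_add, ih]

lemma ev_lt (p : F[X]) (g : ℕ) (hp : p.natDegree < g) :
    ev M e p = ∑ i : Fin g, p.coeff i • ((M ^ (i : ℕ)) *ᵥ e) := by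
  conv_lhs => rw [p.as_sum_range' g hp]
  rw [ev_sum, Finset.sum_range]
  refine Finset.sum_congr rfl (fun i _ => ?_)
  rw [← C_mul_X_pow_eq_monomial, ev_C_mul, ev_X_pow]

lemma sub_mul_ev (x : F) (q : F[X]) :
    ev M e ((X - C x) * q) = M *ᵥ ev M e q - x • ev M e q := by
  rw [sub_mul, ev_sub, ev_X_mul, ev_C_mul]

end

theorem main (hiso : S_ISO) : S_SIMPLE := by
  intro F _ I _ _ E e g w c x hE hdet hcard hg hcyc hlast hroot hder
  classical
  set M : Matrix I I F := E⁻¹ * (w - wᵀ) with hM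
  have hchain : ∀ i : ℕ, chain E e w i = (M ^ i) *ᵥ e := fun i => rfl
  -- bilinear form
  have hET : Eᵀ = -E := by
    ext u v
    rw [Matrix.transpose_apply, Matrix.neg_apply, hE.2 v u]
  have hdetT : IsUnit (Eᵀ).det := by rw [Matrix.det_transpose]; exact hdet
  have hMTE : Mᵀ * E = E * M := by
    have h1 : E * M = w - wᵀ := by
      rw [hM, ← Matrix.mul_assoc, Matrix.mul_nonsing_inv _ hdet, Matrix.one_mul]
    have h2 : Mᵀ = (w - wᵀ)ᵀ * (Eᵀ)⁻¹ := by
      rw [hM, Matrix.transpose_mul, Matrix.transpose_nonsing_inv]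
    have h3 : (w - wᵀ)ᵀ = -(w - wᵀ) := by
      rw [Matrix.transpose_sub, Matrix.transpose_transpose]; abel
    have h4 : E = -Eᵀ := by rw [hET, neg_neg]
    rw [h1, h2, h3]
    calc -(w - wᵀ) * (Eᵀ)⁻¹ * E = -(w - wᵀ) * (Eᵀ)⁻¹ * (-Eᵀ) := by rw [← h4]
      _ = (w - wᵀ) * ((Eᵀ)⁻¹ * Eᵀ) := by
        rw [Matrix.mul_neg, Matrix.neg_mul, Matrix.neg_mul, neg_neg, Matrix.mul_assoc]
      _ = w - wᵀ := by rw [Matrix.nonsing_inv_mul _ hdetT, Matrix.mul_one]
  have hadj : ∀ u v : I → F, (M *ᵥ u) ⬝ᵥ (E *ᵥ v) = u ⬝ᵥ (E *ᵥ (M *ᵥ v)) := by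
    intro u v
    have h1 : (M *ᵥ u) ⬝ᵥ (E *ᵥ v) = u ⬝ᵥ (Mᵀ *ᵥ (E *ᵥ v)) := by
      rw [Matrix.mulVec_transpose, dotProduct_comm u, ← Matrix.dotProduct_mulVec, dotProduct_comm]
    rw [h1, Matrix.mulVec_mulVec, hMTE, ← Matrix.mulVec_mulVec]
  have halt0 : ∀ b : I → F, b ⬝ᵥ (E *ᵥ b) = 0 := by
    intro b
    have := hiso F I E b w hE hdet 0 0
    simpa [chain] using this
  have halt1 : ∀ b : I → F, (M *ᵥ b) ⬝ᵥ (E *ᵥ b) = 0 := by
    intro b
    have := hiso F I E b w hE hdet 1 0
    simpa [chain] using this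
  have hker : ∀ v : I → F, (w - wᵀ - x • E) *ᵥ v = 0 ↔ M *ᵥ v = x • v := by
    intro v
    have h1 : (w - wᵀ - x • E) *ᵥ v = E *ᵥ (M *ᵥ v - x • v) := by
      rw [Matrix.mulVec_sub, Matrix.mulVec_mulVec, hM, ← Matrix.mul_assoc,
        Matrix.mul_nonsing_inv _ hdet, Matrix.one_mul, Matrix.mulVec_smul, Matrix.sub_mulVec,
        Matrix.smul_mulVec]
    rw [h1]
    constructor
    · intro h
      have h2 : E⁻¹ *ᵥ (E *ᵥ (M *ᵥ v - x • v)) = 0 := by rw [h, Matrix.mulVec_zero]
      rw [Matrix.mulVec_mulVec, Matrix.nonsing_inv_mul _ hdet, Matrix.one_mulVec] at h2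
      exact sub_eq_zero.mp h2
    · intro h
      rw [h, sub_self, Matrix.mulVec_zero]
  -- the polynomial `f`
  set f : F[X] := X ^ g + ∑ j : Fin g, C (c j) * X ^ (j : ℕ) with hf
  have hdeglt : (∑ j : Fin g, C (c j) * X ^ (j : ℕ)).degree < ((g : ℕ) : WithBot ℕ) :=
    degree_sum_fin_lt c
  have hmonic : f.Monic := monic_X_pow_add hdeglt
  have hnat : f.natDegree = g := by
    rw [hf, natDegree_add_eq_left_of_degree_lt (by rw [degree_X_pow]; exact hdeglt), natDegree_X_pow]
  have hfx : f.eval x = 0 := by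
    rw [hf]; simp only [eval_add, eval_pow, eval_X, eval_finsetSum, eval_mul, eval_C]
    exact hroot
  have hfe : ev M e f = 0 := by
    rw [hf, ev_add, ev_X_pow, ev_sum]
    have h1 : ∀ j : Fin g, ev M e (C (c j) * X ^ (j : ℕ)) = c j • chain E e w j := by
      intro j; rw [ev_C_mul, ev_X_pow, hchain]
    rw [Finset.sum_congr rfl (fun j _ => h1 j)]
    rw [← hchain g, hlast]
    simp
  have hfmul : ∀ q : F[X], ev M e (f * q) = 0 := by
    intro q
    rw [mul_comm, ev_mul, hfe, Matrix.mulVec_zero]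
  have hfdvd : ∀ p : F[X], ev M e p = 0 → f ∣ p := by
    intro p hp
    have h1 : p %ₘ f + f * (p /ₘ f) = p := modByMonic_add_div p f
    have h2 : ev M e (p %ₘ f) = 0 := by
      have := congrArg (ev M e) h1
      rw [ev_add, hfmul, add_zero, hp] at this
      exact this
    have h3 : (p %ₘ f).natDegree < g := by
      have := natDegree_modByMonic_lt p hmonic (by
        intro h
        rw [h, natDegree_one] at hnat
        omega)
      rwa [hnat] at this
    rw [ev_lt M e _ g h3] at h2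
    have h4 := Fintype.linearIndependent_iff.mp hcyc (fun i => (p %ₘ f).coeff i) h2
    have h5 : p %ₘ f = 0 := by
      ext n
      rw [coeff_zero]
      by_cases hn : n < g
      · exact h4 ⟨n, hn⟩
      · exact coeff_eq_zero_of_natDegree_lt (by omega)
    exact (modByMonic_eq_zero_iff_dvd hmonic).mp h5
  -- the polynomial `h`
  obtain ⟨h, hfh⟩ : (X - C x) ∣ f := dvd_iff_isRoot.mpr hfx
  have hhmonic : h.Monic := (monic_X_sub_C x).of_mul_monic_left (by rw [← hfh]; exact hmonic)
  have hhnat : h.natDegree + 1 = g := by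
    have := congrArg natDegree hfh
    rw [hnat, natDegree_mul (X_sub_C_ne_zero x) hhmonic.ne_zero, natDegree_X_sub_C] at this
    omega
  have hhx : h.eval x ≠ 0 := by
    have h1 : (derivative f).eval x = h.eval x := by
      rw [hfh, derivative_mul, derivative_sub, derivative_X, derivative_C]
      simp
    have h2 : (derivative f).eval x =
        (g : F) * x ^ (g - 1) + ∑ j : Fin g, (j : ℕ) * c j * x ^ ((j : ℕ) - 1) := by
      rw [hf, derivative_add, derivative_X_pow, derivative_sum, eval_add, eval_finsetSum]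
      congr 1
      · simp
      · refine Finset.sum_congr rfl (fun j _ => ?_)
        rw [derivative_C_mul, derivative_X_pow]
        simp only [eval_mul, eval_C, eval_pow, eval_X]
        ring
    rw [← h1, h2]
    exact hder
  set a : I → F := ev M e h with ha
  have hane : a ≠ 0 := by
    intro h0
    have h1 := hfdvd h h0
    have h2 := natDegree_le_of_dvd h1 hhmonic.ne_zero
    omega
  have hMa : M *ᵥ a = x • a := by
    have h1 := sub_mul_ev M e x h
    rw [← hfh, hfe] at h1
    exact (sub_eq_zero.mp h1.symm)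
  -- isotropy
  have hW0 : ∀ p q : F[X], (ev M e p) ⬝ᵥ (E *ᵥ (ev M e q)) = 0 := by
    intro p q
    rw [ev_lt M e p (p.natDegree + 1) (Nat.lt_succ_self _),
      ev_lt M e q (q.natDegree + 1) (Nat.lt_succ_self _)]
    rw [Matrix.mulVec_sum, sum_dotProduct]
    refine Finset.sum_eq_zero (fun i _ => ?_)
    rw [dotProduct_sum]
    refine Finset.sum_eq_zero (fun j _ => ?_)
    rw [Matrix.mulVec_smul, smul_dotProduct, dotProduct_smul]
    have := hiso F I E e w hE hdet i j
    rw [hchain, hchain] at this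
    rw [this, smul_zero, smul_zero]
  -- the map `v ↦ (B(v_i, v))_i`
  set N : Matrix (Fin g) I F := Matrix.of (fun i : Fin g => chain E e w i) with hN
  have hrank : (N * E).rank = g := by
    rw [Matrix.rank_mul_eq_left_of_isUnit_det _ _ hdet]
    have h1 : LinearIndependent F N.row := hcyc
    rw [h1.rank_matrix, Fintype.card_fin]
  have hNE : ∀ (v : I → F) (i : Fin g), ((N * E) *ᵥ v) i = chain E e w i ⬝ᵥ (E *ᵥ v) := by
    intro v i
    rw [← Matrix.mulVec_mulVec]
    rfl
  have hsurj : Function.Surjective (N * E).mulVecLin := by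
    rw [← LinearMap.range_eq_top]
    apply Submodule.eq_top_of_finrank_eq
    have : Module.finrank F (LinearMap.range (N * E).mulVecLin) = (N * E).rank := rfl
    rw [this, hrank, Module.finrank_fin_fun]
  have horth : ∀ v : I → F, (∀ i : Fin g, chain E e w i ⬝ᵥ (E *ᵥ v) = 0) → ∃ p : F[X],
      v = ev M e p := by
    set W : Submodule F (I → F) := Submodule.span F (Set.range (fun j : Fin g => chain E e w j))
      with hW
    have hWdim : Module.finrank F W = g := by
      rw [hW, finrank_span_eq_card hcyc, Fintype.card_fin]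
    have hkdim : Module.finrank F (LinearMap.ker (N * E).mulVecLin) = g := by
      have h1 := LinearMap.finrank_range_add_finrank_ker (N * E).mulVecLin
      have h2 : Module.finrank F (LinearMap.range (N * E).mulVecLin) = (N * E).rank := rfl
      rw [h2, hrank, Module.finrank_fintype_fun_eq_card, hcard] at h1
      omega
    have hle : W ≤ LinearMap.ker (N * E).mulVecLin := by
      rw [hW, Submodule.span_le]
      rintro _ ⟨j, rfl⟩
      rw [SetLike.mem_coe, LinearMap.mem_ker]
      ext i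
      rw [Matrix.mulVecLin_apply, hNE, Pi.zero_apply]
      exact hiso F I E e w hE hdet i j
    have heq := Submodule.eq_of_le_of_finrank_eq hle (by rw [hWdim, hkdim])
    intro v hv
    have hvk : v ∈ LinearMap.ker (N * E).mulVecLin := by
      rw [LinearMap.mem_ker]
      ext i
      rw [Matrix.mulVecLin_apply, hNE, Pi.zero_apply]
      exact hv i
    rw [← heq, hW, Submodule.mem_span_range_iff_exists_fun] at hvk
    obtain ⟨d, hd⟩ := hvk
    refine ⟨∑ j : Fin g, C (d j) * X ^ (j : ℕ), ?_⟩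
    rw [ev_sum, ← hd]
    refine Finset.sum_congr rfl (fun j _ => ?_)
    rw [ev_C_mul, ev_X_pow, hchain]
  -- the vector `b₀`
  obtain ⟨b₀, hb₀⟩ := hsurj (fun i : Fin g => x ^ (i : ℕ) / h.eval x)
  have hb₀' : ∀ i : Fin g, chain E e w i ⬝ᵥ (E *ᵥ b₀) = x ^ (i : ℕ) / h.eval x := by
    intro i
    have := congrFun hb₀ i
    rw [Matrix.mulVecLin_apply, hNE] at this
    exact this
  have hBb : ∀ p : F[X], (ev M e p) ⬝ᵥ (E *ᵥ b₀) = p.eval x / h.eval x := by
    intro p
    have h1 : p %ₘ f + f * (p /ₘ f) = p := modByMonic_add_div p f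
    have h3 : (p %ₘ f).natDegree < g := by
      have := natDegree_modByMonic_lt p hmonic (by
        intro h
        rw [h, natDegree_one] at hnat
        omega)
      rwa [hnat] at this
    have h2 : ev M e p = ev M e (p %ₘ f) := by
      conv_lhs => rw [← h1]
      rw [ev_add, hfmul, add_zero]
    have h4 : p.eval x = (p %ₘ f).eval x := by
      conv_lhs => rw [← h1]
      rw [eval_add, eval_mul, hfx, zero_mul, add_zero]
    rw [h2, h4, ev_lt M e _ g h3, sum_dotProduct, eval_eq_sum_range' h3, Finset.sum_range,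
      Finset.sum_div]
    refine Finset.sum_congr rfl (fun i _ => ?_)
    rw [smul_dotProduct, ← hchain, hb₀' i, smul_eq_mul, mul_div_assoc]
  -- decomposition of polynomials
  have hdec : ∀ p : F[X], ∃ r : F[X],
      ev M e p = (p.eval x / h.eval x) • a + (M *ᵥ ev M e r - x • ev M e r) := by
    intro p
    have h1 : (p - C (p.eval x / h.eval x) * h).eval x = 0 := by
      rw [eval_sub, eval_mul, eval_C, div_mul_cancel₀ _ hhx, sub_self]
    obtain ⟨r, hr⟩ : (X - C x) ∣ p - C (p.eval x / h.eval x) * h := dvd_iff_isRoot.mpr h1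
    refine ⟨r, ?_⟩
    rw [← sub_mul_ev, ← hr, ev_sub, ev_C_mul, ← ha]
    abel
  -- `(M - x) b₀`
  obtain ⟨p, hp⟩ := horth (M *ᵥ b₀ - x • b₀) (by
    intro i
    rw [Matrix.mulVec_sub, Matrix.mulVec_smul, dotProduct_sub, dotProduct_smul, ← hadj]
    have h1 : M *ᵥ chain E e w i = ev M e (X * X ^ (i : ℕ)) := by
      rw [ev_X_mul, ev_X_pow, hchain]
    rw [h1, hBb, hb₀' i]
    simp only [eval_mul, eval_X, eval_pow, smul_eq_mul]
    ring)
  obtain ⟨r, hr⟩ := hdec p
  set α : F := p.eval x / h.eval x with hα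
  set b : I → F := b₀ - ev M e r with hb
  have hMb : M *ᵥ b - x • b = α • a := by
    rw [hb, Matrix.mulVec_sub, smul_sub]
    have : M *ᵥ b₀ - M *ᵥ ev M e r - (x • b₀ - x • ev M e r) =
        (M *ᵥ b₀ - x • b₀) - (M *ᵥ ev M e r - x • ev M e r) := by abel
    rw [this, hp, hr]
    abel
  have hBab : a ⬝ᵥ (E *ᵥ b) = 1 := by
    rw [hb, Matrix.mulVec_sub, dotProduct_sub, ha, hBb, hW0, sub_zero, div_self hhx]
  have hα0 : α = 0 := by
    have h1 : (α • a) ⬝ᵥ (E *ᵥ b) = 0 := by
      rw [← hMb, sub_dotProduct, smul_dotProduct, halt0, halt1, smul_zero, sub_zero]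
    rw [smul_dotProduct, hBab, smul_eq_mul, mul_one] at h1
    exact h1
  have hMb' : M *ᵥ b = x • b := by
    rw [hα0, zero_smul] at hMb
    exact sub_eq_zero.mp hMb
  refine ⟨a, b, (hker a).2 hMa, (hker b).2 hMb', by rw [hBab]; exact one_ne_zero, ?_⟩
  intro v hv
  have hMv := (hker v).1 hv
  set t : F := a ⬝ᵥ (E *ᵥ v) with ht
  set v' : I → F := v - t • b with hv'
  have hMv' : M *ᵥ v' = x • v' := by
    rw [hv', Matrix.mulVec_sub, Matrix.mulVec_smul, hMv, hMb', smul_sub x v, smul_comm t x b]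
  have hBav' : a ⬝ᵥ (E *ᵥ v') = 0 := by
    rw [hv', Matrix.mulVec_sub, Matrix.mulVec_smul, dotProduct_sub, dotProduct_smul, hBab,
      smul_eq_mul, mul_one, ← ht, sub_self]
  obtain ⟨p₂, hp₂⟩ := horth v' (by
    intro i
    obtain ⟨r₂, hr₂⟩ := hdec (X ^ (i : ℕ))
    rw [hchain, ← ev_X_pow, hr₂, add_dotProduct, smul_dotProduct, hBav', smul_zero, zero_add,
      sub_dotProduct, hadj, hMv', smul_dotProduct, Matrix.mulVec_smul, dotProduct_smul, sub_self])
  have h1 : ev M e ((X - C x) * p₂) = 0 := by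
    rw [sub_mul_ev, ← hp₂, hMv', sub_self]
  have h2 := hfdvd _ h1
  rw [hfh] at h2
  obtain ⟨k, hk⟩ : h ∣ p₂ := (mul_dvd_mul_iff_left (X_sub_C_ne_zero x)).mp h2
  obtain ⟨k', hk'⟩ : (X - C x) ∣ k - C (k.eval x) :=
    dvd_iff_isRoot.mpr (by simp [IsRoot])
  refine ⟨k.eval x, t, ?_⟩
  have h3 : v' = k.eval x • a := by
    have h4 : p₂ = f * k' + C (k.eval x) * h := by
      have h5 : k = (X - C x) * k' + C (k.eval x) := by rw [← hk']; ring
      calc p₂ = h * k := hk
        _ = h * ((X - C x) * k' + C (k.eval x)) := by rw [← h5]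
        _ = f * k' + C (k.eval x) * h := by rw [hfh]; ring
    rw [hp₂, h4, ev_add, hfmul, zero_add, ev_C_mul, ← ha]
  rw [← h3, hv']
  abel

end Pool.Agent.H47.PF.SIMPLE
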