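import Pool.Agent.H47.PF.Stm

set_option autoImplicit false

/-! # Project PF, stub UNI (helper73) -/

namespace Pool.Agent.H47.PF.UNI

open Matrix Polynomial Pool.Agent.H47.PF

variable {F : Type} [Field F] {I : Type} [Fintype I] [DecidableEq I]

theorem exists_c {i : ℕ} {u : Fin (i + 1) → I → F} (hu : LinearIndependent F u) :
    ∃ c : I → F, (∀ j : Fin i, c ⬝ᵥ u j.castSucc = 0) ∧ c ⬝ᵥ u (Fin.last i) = 1 := by
  classical
  have hinj : LinearMap.ker (Fintype.linearCombination F u) = ⊥ := by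
    rw [LinearMap.ker_eq_bot]
    exact hu.fintypeLinearCombination_injective
  obtain ⟨G, hG⟩ := LinearMap.exists_leftInverse_of_injective _ hinj
  have hGu : ∀ j, G (u j) = Pi.single j 1 := by
    intro j
    have h1 : Fintype.linearCombination F u (Pi.single j 1) = u j := by
      rw [Fintype.linearCombination_apply_single, one_smul]
    rw [← h1]
    exact LinearMap.congr_fun hG _
  refine ⟨fun l => G (fun m => if l = m then 1 else 0) (Fin.last i), fun j => ?_, ?_⟩
  · have h1 : G (u j.castSucc) (Fin.last i) = 0 := by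
      rw [hGu, Pi.single_eq_of_ne (Fin.castSucc_lt_last j).ne']
    rw [LinearMap.pi_apply_eq_sum_univ G, Finset.sum_apply] at h1
    refine Eq.trans ?_ h1
    rw [dotProduct]
    refine Finset.sum_congr rfl fun l _ => ?_
    rw [Pi.smul_apply, smul_eq_mul, mul_comm]
  · have h1 : G (u (Fin.last i)) (Fin.last i) = 1 := by
      rw [hGu, Pi.single_eq_same]
    rw [LinearMap.pi_apply_eq_sum_univ G, Finset.sum_apply] at h1
    refine Eq.trans ?_ h1
    rw [dotProduct]
    refine Finset.sum_congr rfl fun l _ => ?_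
    rw [Pi.smul_apply, smul_eq_mul, mul_comm]

omit [DecidableEq I] in
theorem shift (w : Matrix I I F) (d c u : I → F) (hd : u ⬝ᵥ d = 0) :
    ((w + vecMulVec d c) - (w + vecMulVec d c)ᵀ) *ᵥ u = (w - wᵀ) *ᵥ u + (c ⬝ᵥ u) • d := by
  have h1 : (w + vecMulVec d c) - (w + vecMulVec d c)ᵀ =
      (w - wᵀ) + (vecMulVec d c - vecMulVec c d) := by
    rw [Matrix.transpose_add, Matrix.transpose_vecMulVec]
    abel
  have h2 : ∀ a b : I → F, vecMulVec a b *ᵥ u = (b ⬝ᵥ u) • a := by
    intro a b
    ext l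
    simp only [mulVec, dotProduct, vecMulVec_apply, Pi.smul_apply, smul_eq_mul, Finset.sum_mul]
    refine Finset.sum_congr rfl fun m _ => ?_
    ring
  rw [h1, Matrix.add_mulVec, Matrix.sub_mulVec (vecMulVec d c), h2, h2, dotProduct_comm d u, hd, zero_smul,
    sub_zero]

theorem main : S_UNI := by
  intro F _ _ I _ _ i u b y d hu hd
  obtain ⟨c, hc1, hc2⟩ := exists_c hu
  refine Nat.card_congr (Equiv.subtypeEquiv (Equiv.addRight (vecMulVec d c)) fun w => ?_)
  simp only [Equiv.coe_addRight]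
  have h1 : ∀ j : Fin i, ((w + vecMulVec d c) - (w + vecMulVec d c)ᵀ) *ᵥ u j.castSucc =
      (w - wᵀ) *ᵥ u j.castSucc := by
    intro j
    rw [shift w d c _ (hd _), hc1, zero_smul, add_zero]
  have h2 : ((w + vecMulVec d c) - (w + vecMulVec d c)ᵀ) *ᵥ u (Fin.last i) =
      (w - wᵀ) *ᵥ u (Fin.last i) + d := by
    rw [shift w d c _ (hd _), hc2, one_smul]
  simp only [h1, h2, add_left_inj]

end Pool.Agent.H47.PF.UNI
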