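import Pool.Agent.H47.PF.Stm

set_option autoImplicit false

/-! # Project PF, stub ISO (helper73) -/

namespace Pool.Agent.H47.PF.ISO

open Matrix Polynomial Pool.Agent.H47.PF

variable {F : Type} [Field F] {I : Type} [Fintype I] [DecidableEq I]

omit [DecidableEq I] in
theorem altn_zero {B : Matrix I I F} (hB : Altn B) (x : I → F) : x ⬝ᵥ (B *ᵥ x) = 0 := by
  have h : x ⬝ᵥ (B *ᵥ x) = ∑ p : I × I, x p.1 * (B p.1 p.2 * x p.2) := by
    simp only [dotProduct, mulVec, Finset.mul_sum, Fintype.sum_prod_type]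
  rw [h]
  refine Finset.sum_involution (fun p _ => (p.2, p.1)) ?_ ?_ ?_ ?_
  · intro p _
    show x p.1 * (B p.1 p.2 * x p.2) + x p.2 * (B p.2 p.1 * x p.1) = 0
    rw [hB.2 p.1 p.2]
    ring
  · intro p _ hp hpp
    apply hp
    have h1 : p.2 = p.1 := congrArg Prod.fst hpp
    rw [h1, hB.1]
    ring
  · intro p _
    exact Finset.mem_univ _
  · intro p _
    rfl

omit [Fintype I] [DecidableEq I] in
theorem altn_sub (w : Matrix I I F) : Altn (w - wᵀ) := by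
  refine ⟨fun u => ?_, fun u v => ?_⟩
  · simp
  · simp

omit [Fintype I] [DecidableEq I] in
theorem altn_tr {B : Matrix I I F} (hB : Altn B) : Bᵀ = -B := by
  ext u v
  rw [Matrix.transpose_apply, Matrix.neg_apply]
  exact hB.2 v u

theorem adj {E : Matrix I I F} (hE : Altn E) (hu : IsUnit E.det) (w : Matrix I I F) (x y : I → F) :
    ((E⁻¹ * (w - wᵀ)) *ᵥ x) ⬝ᵥ (E *ᵥ y) = x ⬝ᵥ (E *ᵥ ((E⁻¹ * (w - wᵀ)) *ᵥ y)) := by
  have h1 : (E⁻¹ * (w - wᵀ))ᵀ * E = w - wᵀ := by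
    rw [Matrix.transpose_mul, Matrix.transpose_nonsing_inv, altn_tr hE, altn_tr (altn_sub w)]
    have h2 : (-E)⁻¹ = -E⁻¹ := by
      rw [show (-E) = (-1 : F) • E by simp]
      apply Matrix.inv_eq_right_inv
      simp [Matrix.mul_nonsing_inv _ hu]
    rw [h2, neg_mul_neg, Matrix.mul_assoc, Matrix.nonsing_inv_mul _ hu, Matrix.mul_one]
  have h2 : E * (E⁻¹ * (w - wᵀ)) = w - wᵀ := by
    rw [← Matrix.mul_assoc, Matrix.mul_nonsing_inv _ hu, Matrix.one_mul]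
  rw [Matrix.mulVec_mulVec, h2, ← Matrix.vecMul_transpose, ← Matrix.dotProduct_mulVec,
    Matrix.mulVec_mulVec, h1]

theorem pow_adj {E : Matrix I I F} (hE : Altn E) (hu : IsUnit E.det) (w : Matrix I I F) (n : ℕ) :
    ∀ x y : I → F, (((E⁻¹ * (w - wᵀ)) ^ n) *ᵥ x) ⬝ᵥ (E *ᵥ y) =
      x ⬝ᵥ (E *ᵥ (((E⁻¹ * (w - wᵀ)) ^ n) *ᵥ y)) := by
  induction n with
  | zero => intro x y; simp
  | succ n ih =>
    intro x y
    have h1 : (E⁻¹ * (w - wᵀ)) *ᵥ (((E⁻¹ * (w - wᵀ)) ^ n) *ᵥ y) =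
        ((E⁻¹ * (w - wᵀ)) ^ n * (E⁻¹ * (w - wᵀ))) *ᵥ y := by
      rw [Matrix.mulVec_mulVec, ← pow_succ', pow_succ]
    rw [pow_succ, ← Matrix.mulVec_mulVec, ih, adj hE hu, h1]

theorem main : S_ISO := by
  intro F _ I _ _ E e w hE hu i j
  unfold chain
  set M := E⁻¹ * (w - wᵀ) with hM
  have h2 : E * M = w - wᵀ := by
    rw [hM, ← Matrix.mul_assoc, Matrix.mul_nonsing_inv _ hu, Matrix.one_mul]
  -- reduce to a power
  have key : ∀ n : ℕ, e ⬝ᵥ (E *ᵥ (M ^ n *ᵥ e)) = 0 := by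
    intro n
    rcases Nat.even_or_odd n with ⟨m, hm⟩ | ⟨m, hm⟩
    · rw [hm, pow_add, ← Matrix.mulVec_mulVec, ← pow_adj hE hu w m e (M ^ m *ᵥ e)]
      exact altn_zero hE _
    · have h3 : M ^ n = M ^ m * (M * M ^ m) := by
        rw [hm, ← pow_succ', ← pow_add]
        congr 1
        ring
      rw [h3, ← Matrix.mulVec_mulVec, ← pow_adj hE hu w m e ((M * M ^ m) *ᵥ e),
        ← Matrix.mulVec_mulVec, Matrix.mulVec_mulVec _ E M, h2]
      exact altn_zero (altn_sub w) _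
  have h4 : M ^ i *ᵥ (M ^ j *ᵥ e) = M ^ (i + j) *ᵥ e := by
    rw [Matrix.mulVec_mulVec, ← pow_add]
  rw [pow_adj hE hu w i, ← hM, h4]
  exact key (i + j)

end Pool.Agent.H47.PF.ISO
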